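import Pool.Agent.H75C.HY.NF

set_option autoImplicit false

namespace Pool.Agent.H75C.HY.NF

open Classical

section
variable {α : Type}

/-- Coefficient. -/
def cA3 (e : α → α → ZMod 2) : Option α → α → ZMod 2
  | none, _ => 1
  | some b, a => e b a

theorem one_add_sum_A3 (e : α → α → ZMod 2) (B : Finset α) (a : α) :
    ∑ o ∈ Finset.insertNone B, cA3 e o a = 1 + ∑ b ∈ B, e b a := by
  rw [Finset.sum_insertNone]
  rfl

theorem D_A3 (e : α → α → ZMod 2) (A' B : Finset α) :
    (if ∃ a ∈ A', ∑ b ∈ B, e b a = 1 then (1 : ZMod 2) else 0) =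
      1 + ∏ a ∈ A', (1 + ∑ b ∈ B, e b a) := by
  split_ifs with h
  · obtain ⟨a, ha, h1⟩ := h
    rw [Finset.prod_eq_zero ha (by rw [h1]; exact CharTwo.add_self_eq_zero 1)]
    simp
  · push Not at h
    have hp : ∏ a ∈ A', (1 + ∑ b ∈ B, e b a) = 1 := by
      refine Finset.prod_eq_one fun a ha => ?_
      have h2 : ∀ z : ZMod 2, z ≠ 1 → 1 + z = 1 := by decide
      exact h2 _ (h a ha)
    rw [hp]
    exact (CharTwo.add_self_eq_zero 1).symm

/-- Number of the sets that contain the image. -/
noncomputable def nA3 {A' : Finset α} (A : Finset α) (x : {a // a ∈ A'} → Option α) : ZMod 2 :=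
  ∑ B ∈ A.powerset, if ∀ i, x i ∈ Finset.insertNone B then (1 : ZMod 2) else 0

theorem nA3_mem {A' A : Finset α} {x : {a // a ∈ A'} → Option α} (h : nA3 A x ≠ 0) (b : α)
    (hb : b ∈ A) : ∃ i, x i = some b := by
  by_contra hx
  push Not at hx
  apply h
  unfold nA3
  rw [← Finset.insert_erase hb, Finset.sum_powerset_insert (Finset.notMem_erase b A)]
  have : ∀ B ∈ (A.erase b).powerset,
      (if ∀ i, x i ∈ Finset.insertNone (insert b B) then (1 : ZMod 2) else 0) =
        if ∀ i, x i ∈ Finset.insertNone B then (1 : ZMod 2) else 0 := by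
    intro B _
    have hiff : (∀ i, x i ∈ Finset.insertNone (insert b B)) ↔ ∀ i, x i ∈ Finset.insertNone B := by
      refine forall_congr' fun i => ?_
      have := hx i
      rcases hxi : x i with _ | c
      · simp
      · rw [hxi] at this
        simp only [Finset.some_mem_insertNone, Finset.mem_insert]
        constructor
        · rintro (h | h)
          · exact absurd (congrArg some h) this
          · exact h
        · exact Or.inr
    simp only [hiff]
  rw [Finset.sum_congr rfl this]
  exact CharTwo.add_self_eq_zero _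

theorem swap_A3 (e : α → α → ZMod 2) (A' A : Finset α) :
    ∑ B ∈ A.powerset, ∏ a ∈ A', (1 + ∑ b ∈ B, e b a) =
      ∑ x ∈ Fintype.piFinset (fun _ : {a // a ∈ A'} => Finset.insertNone A),
        (∏ i, cA3 e (x i) i) * nA3 A x := by
  have h1 : ∀ B ∈ A.powerset, ∏ a ∈ A', (1 + ∑ b ∈ B, e b a) =
      ∑ x ∈ Fintype.piFinset (fun _ : {a // a ∈ A'} => Finset.insertNone A),
        (∏ i, cA3 e (x i) i) * (if ∀ i, x i ∈ Finset.insertNone B then (1 : ZMod 2) else 0) := by
    intro B hB
    have hBA : B ⊆ A := Finset.mem_powerset.1 hB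
    have h2 : ∏ a ∈ A', (1 + ∑ b ∈ B, e b a) =
        ∏ i : {a // a ∈ A'}, ∑ o ∈ Finset.insertNone B, cA3 e o i := by
      rw [← Finset.prod_attach]
      refine Finset.prod_congr rfl fun i _ => ?_
      rw [one_add_sum_A3]
    rw [h2, Finset.prod_univ_sum]
    simp only [mul_ite, mul_one, mul_zero]
    rw [← Finset.sum_filter]
    refine Finset.sum_congr ?_ fun _ _ => rfl
    ext x
    simp only [Fintype.mem_piFinset, Finset.mem_filter]
    constructor
    · intro h
      refine ⟨fun i => ?_, h⟩
      exact Finset.insertNone.monotone hBA (h i)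
    · exact fun h => h.2
  rw [Finset.sum_congr rfl h1, Finset.sum_comm]
  refine Finset.sum_congr rfl fun x _ => ?_
  rw [← Finset.mul_sum]
  rfl

theorem infl_A3 {ι : Type} [Fintype ι] (r : ι → ι → Prop) (hr : ∀ a, r a a)
    (ht : ∀ a b c, r a b → r b c → r a c) (ha : ∀ a b, r a b → r b a → a = b)
    (s : ι → ι) (hs : Function.Injective s) (hi : ∀ b, r b (s b)) (b : ι) : s b = b := by
  let σ : Equiv.Perm ι := Equiv.ofBijective s (Finite.injective_iff_bijective.1 hs)
  have h1 : ∀ (n : ℕ) (b : ι), r b ((σ ^ n) b) := by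
    intro n
    induction n with
    | zero => exact fun b => hr b
    | succ n ih =>
      intro b
      rw [pow_succ]
      exact ht _ _ _ (hi b) (ih (s b))
  have h2 : (σ ^ (orderOf σ)) b = b := by rw [pow_orderOf_eq_one]; rfl
  have h3 : 0 < orderOf σ := orderOf_pos σ
  obtain ⟨m, hm⟩ := Nat.exists_eq_succ_of_ne_zero h3.ne'
  rw [hm, Nat.succ_eq_add_one, pow_succ] at h2
  have h4 : r (s b) b := by
    have := h1 m (s b)
    have h5 : (σ ^ m) (s b) = b := h2
    rwa [h5] at this
  exact ha _ _ h4 (hi b)

end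

theorem a3 : A3 := by
  intro α r hr ht has A' e A he
  have hsum : (∑ B ∈ A.powerset, if ∃ a ∈ A', ∑ b ∈ B, e b a = 1 then (1 : ZMod 2) else 0) =
      (∑ B ∈ A.powerset, (1 : ZMod 2)) +
      ∑ x ∈ Fintype.piFinset (fun _ : {a // a ∈ A'} => Finset.insertNone A),
        (∏ i, cA3 e (x i) i) * nA3 A x := by
    rw [← swap_A3, ← Finset.sum_add_distrib]
    exact Finset.sum_congr rfl fun B _ => D_A3 e A' B
  have hone : A.Nonempty → (∑ B ∈ A.powerset, (1 : ZMod 2)) = 0 := by
    intro hA
    rw [Finset.sum_const, Finset.card_powerset, nsmul_eq_mul, mul_one]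
    have : A.card ≠ 0 := Finset.card_ne_zero.2 hA
    push_cast
    have h2 : (2 : ZMod 2) = 0 := rfl
    rw [h2, zero_pow this]
  constructor
  · intro hS
    rcases A.eq_empty_or_nonempty with rfl | hA
    · exact ⟨fun _ => none, by simp, by simp⟩
    rw [hsum, hone hA, zero_add] at hS
    obtain ⟨x, hx, hne⟩ := Finset.exists_ne_zero_of_sum_ne_zero hS
    have hp : ∏ i, cA3 e (x i) i ≠ 0 := left_ne_zero_of_mul hne
    have hn : nA3 A x ≠ 0 := right_ne_zero_of_mul hne
    refine ⟨fun a => if ha : a ∈ A' then x ⟨a, ha⟩ else none, ?_, ?_⟩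
    · intro a ha b hab
      simp only [ha, dif_pos] at hab
      have hb : b ∈ A := by
        have := (Fintype.mem_piFinset.1 hx) ⟨a, ha⟩
        rw [hab] at this
        simpa using this
      refine he a ha b hb ?_
      have := Finset.prod_ne_zero_iff.1 hp ⟨a, ha⟩ (Finset.mem_univ _)
      rw [hab] at this
      exact this
    · intro b hb
      obtain ⟨i, hi⟩ := nA3_mem hn b hb
      exact ⟨i.1, i.2, by simp [i.2, hi]⟩
  · intro hAA hA hdiag
    subst hAA
    rw [hsum, hone hA, zero_add]
    rw [Finset.sum_eq_single (fun i : {a // a ∈ A} => some i.1)]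
    · have h1 : ∏ i : {a // a ∈ A}, cA3 e (some i.1) i = 1 :=
        Finset.prod_eq_one fun i _ => hdiag i.1 i.2
      have h2 : nA3 A (fun i : {a // a ∈ A} => some i.1) = 1 := by
        unfold nA3
        rw [Finset.sum_eq_single A]
        · rw [if_pos]
          intro i
          simpa using i.2
        · intro B hB hne
          rw [if_neg]
          intro hall
          apply hne
          refine Finset.Subset.antisymm (Finset.mem_powerset.1 hB) fun a ha => ?_
          simpa using hall ⟨a, ha⟩
        · intro h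
          exact absurd (Finset.mem_powerset_self A) h
      rw [h1, h2, one_mul]
    · intro x hx hne
      by_contra hcon
      have hp : ∏ i, cA3 e (x i) i ≠ 0 := left_ne_zero_of_mul hcon
      have hn : nA3 A x ≠ 0 := right_ne_zero_of_mul hcon
      have hch : ∀ b : {a // a ∈ A}, ∃ i, x i = some b.1 := fun b => nA3_mem hn b.1 b.2
      choose s hs using hch
      have hinj : Function.Injective s := by
        intro b c hbc
        have h1 := hs b
        rw [hbc, hs c] at h1
        exact Subtype.ext (Option.some_injective _ h1).symm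
      have hinf : ∀ b : {a // a ∈ A}, r b.1 (s b).1 := by
        intro b
        refine he _ (s b).2 _ b.2 ?_
        have := Finset.prod_ne_zero_iff.1 hp (s b) (Finset.mem_univ _)
        rw [hs b] at this
        exact this
      have hid := infl_A3 (fun a b : {a // a ∈ A} => r a.1 b.1) (fun a => hr _)
        (fun a b c => ht _ _ _) (fun a b h1 h2 => Subtype.ext (has _ _ h1 h2)) s hinj hinf
      apply hne
      funext i
      rw [← hs i, hid i]
    · intro h
      exact absurd (Fintype.mem_piFinset.2 fun i => by simpa using i.2) h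

end Pool.Agent.H75C.HY.NF
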